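import Mathlib
import Pool.Agent.Work.MP_97bde0_lc_helper49.Defs
import Pool.Agent.Work.MP_97bde0_lc_helper49.Lemmas

set_option autoImplicit false

/-!
MP_97bde0_lc, Q1, answered in the affirmative, for countably many measures at once and for
standard Borel spaces in every universe. The question is the case where all the measures are equal.
-/

open MeasureTheory

universe u

namespace Pool.Agent.Results.MP_97bde0_lc.CountablyManyMeasures

open Pool.Agent.Work.MP_97bde0_lc_helper49

/-- Let `E` be an aperiodic countable Borel equivalence relation on a standard Borel space and let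
`μ 0, μ 1, ...` be Borel probability measures such that `E|Z` is not smooth for any invariant Borel
set `Z` with `μ n Z = 1` for all `n`. Then some invariant Borel set `Y` with `μ n Y = 1` for all `n`
is such that `E|Y` admits a compact action realization. -/
theorem result (X : Type u) [MeasurableSpace X] [StandardBorelSpace X] (E : X → X → Prop)
    (μ : ℕ → Measure X) [∀ n, IsProbabilityMeasure (μ n)] (hE : IsCBER E) (hap : IsAperiodic E)
    (hns : ∀ Z : Set X, MeasurableSet Z → IsInvariant E Z → (∀ n, μ n Z = 1) →
      ¬ IsSmooth (Restrict E Z)) :
    ∃ Y : Set X, MeasurableSet Y ∧ IsInvariant E Y ∧ (∀ n, μ n Y = 1) ∧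
      HasCompactActionRealization (Restrict E Y) :=
  main_univ μ hE hap hns

end Pool.Agent.Results.MP_97bde0_lc.CountablyManyMeasures
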